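import Pool.Agent.Work.MP_25cd3b_gt.KB.Defs
import Pool.Agent.Work.MP_25cd3b_gt.Gen.Bridge
import Pool.Agent.Work.MP_25cd3b_gt.M.I_Fib
import Pool.Agent.Work.MP_25cd3b_gt.M.Stmts2

set_option autoImplicit false

/-!
# The ball bundle in terms of velocities and of momenta
-/

open MeasureTheory Set Filter Topology
open scoped ContDiff

namespace Pool.Agent.GM

open Pool.Agent.MLS (E ee W)

namespace KBall

/-- shears have determinant one -/
theorem det_shear {X Y : Type} [AddCommGroup X] [Module ℝ X] [AddCommGroup Y] [Module ℝ Y]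
    [FiniteDimensional ℝ X] [FiniteDimensional ℝ Y] (A : X →ₗ[ℝ] Y) :
    LinearMap.det ((LinearMap.fst ℝ X Y).prod (A ∘ₗ LinearMap.fst ℝ X Y + LinearMap.snd ℝ X Y)) =
      1 := by
  set S : X × Y →ₗ[ℝ] X × Y :=
    (LinearMap.fst ℝ X Y).prod (A ∘ₗ LinearMap.fst ℝ X Y + LinearMap.snd ℝ X Y) with hS
  set S' : X × Y →ₗ[ℝ] X × Y :=
    (LinearMap.fst ℝ X Y).prod (-(A ∘ₗ LinearMap.fst ℝ X Y) + LinearMap.snd ℝ X Y) with hS'
  have h1 : S ∘ₗ S' = LinearMap.id := by
    refine LinearMap.ext fun z => Prod.ext ?_ ?_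
    · simp [hS, hS']
    · simp [hS, hS']
  have h0 : LinearMap.det S ≠ 0 := by
    intro h
    have h2 := congrArg LinearMap.det h1
    rw [LinearMap.det_comp, h, LinearMap.det_id, zero_mul] at h2
    exact zero_ne_one h2
  set D : X × Y →ₗ[ℝ] X × Y := LinearMap.prodMap LinearMap.id ((2 : ℝ) • LinearMap.id) with hD
  set D' : X × Y →ₗ[ℝ] X × Y := LinearMap.prodMap LinearMap.id ((1 / 2 : ℝ) • LinearMap.id)
    with hD'
  have h3 : D ∘ₗ D' = LinearMap.id := by
    refine LinearMap.ext fun z => Prod.ext ?_ ?_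
    · simp [hD, hD']
    · simp [hD, hD', smul_smul]
  have h4 : D ∘ₗ S ∘ₗ D' = S ∘ₗ S := by
    refine LinearMap.ext fun z => Prod.ext ?_ ?_
    · simp [hD, hD', hS]
    · simp [hD, hD', hS, two_smul, add_assoc]
      module
  have h5 := congrArg LinearMap.det h4
  have h6 := congrArg LinearMap.det h3
  rw [LinearMap.det_comp, LinearMap.det_id] at h6
  rw [LinearMap.det_comp, LinearMap.det_comp, LinearMap.det_comp] at h5
  have h7 : LinearMap.det S * (LinearMap.det D * LinearMap.det D') =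
      LinearMap.det S * LinearMap.det S := by
    rw [← h5]
    ring
  rw [h6] at h7
  exact (mul_left_cancel₀ h0 h7).symm

/-- block triangular maps -/
theorem det_tri {X Y : Type} [AddCommGroup X] [Module ℝ X] [AddCommGroup Y] [Module ℝ Y]
    [FiniteDimensional ℝ X] [FiniteDimensional ℝ Y] (A : X →ₗ[ℝ] Y) (B : Y →ₗ[ℝ] Y) :
    LinearMap.det ((LinearMap.fst ℝ X Y).prod
      (A ∘ₗ LinearMap.fst ℝ X Y + B ∘ₗ LinearMap.snd ℝ X Y)) = LinearMap.det B := by
  have h1 : (LinearMap.fst ℝ X Y).prod (A ∘ₗ LinearMap.fst ℝ X Y + B ∘ₗ LinearMap.snd ℝ X Y) =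
      ((LinearMap.fst ℝ X Y).prod (A ∘ₗ LinearMap.fst ℝ X Y + LinearMap.snd ℝ X Y)) ∘ₗ
        LinearMap.prodMap LinearMap.id B := by
    refine LinearMap.ext fun z => Prod.ext ?_ ?_
    · simp
    · simp
  rw [h1, LinearMap.det_comp, det_shear, one_mul, LinearMap.det_prodMap, LinearMap.det_id, one_mul]

/-- the determinant of the operator -/
theorem det_op (hO : MLS.StOp) {n : ℕ} (g : MLS.Form n) (hg : MLS.Riem g) (x : E n) :
    LinearMap.det (MLS.op g x : E n →ₗ[ℝ] E n) = (MLS.gm g x).det := by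
  have h : MLS.op g x = Matrix.toEuclideanCLM (n := Fin n) (𝕜 := ℝ) (MLS.gm g x) := by
    ext1 v
    exact MLS.IFib.op_eq g hg hO x v
  rw [h, Matrix.coe_toEuclideanCLM_eq_toEuclideanLin, Matrix.toEuclideanLin_eq_toLin,
    LinearMap.det_toLin]

/-- integrals over the ball bundle -/
theorem bint_eq (hO : MLS.StOp) {n : ℕ} (g : Frm (E n)) (hg : Riem g) (D : Set (E n))
    (hD : MeasurableSet D) (f : E n → E n → ℝ) :
    bint ee g D f = ∫ z in MLS.Bd (toF g) D, f z.1 (MLS.vel (toF g) z) := by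
  obtain ⟨-, hop, hio, hoi, -, hso, -, -, hH⟩ := hO n (toF g) hg
  set T : W n → W n := fun z => (z.1, MLS.op (toF g) z.1 z.2) with hT
  have hvel : ∀ z, MLS.vel (toF g) (T z) = z.2 := fun z => hio z.1 z.2
  have himg : MLS.Bd (toF g) D = T '' Ball g D := by
    ext z
    simp only [MLS.Bd, Ball, mem_image, mem_setOf_eq]
    constructor
    · rintro ⟨h1, h2⟩
      refine ⟨(z.1, MLS.iop (toF g) z.1 z.2), ⟨h1, ?_⟩, ?_⟩
      · rw [hH] at h2
        have h3 : (toF g).val z.1 (MLS.vel (toF g) z) (MLS.vel (toF g) z) ≤ 1 := by linarith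
        exact h3
      · rw [hT]
        exact Prod.ext rfl (hoi z.1 z.2)
    · rintro ⟨w, ⟨h1, h2⟩, rfl⟩
      refine ⟨h1, ?_⟩
      rw [hH, hvel]
      have h3 : (toF g).val w.1 w.2 w.2 ≤ 1 := h2
      change 1 / 2 * (toF g).val w.1 w.2 w.2 ≤ 1 / 2
      linarith
  have hm : MeasurableSet (Ball g D) := by
    have h1 : Ball g D = (Prod.fst ⁻¹' D) ∩ {z : W n | g.val z.1 z.2 z.2 ≤ 1} := rfl
    rw [h1]
    refine (measurable_fst hD).inter (IsClosed.measurableSet ?_)
    refine isClosed_le ?_ continuous_const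
    exact ((g.smooth.continuous.comp continuous_fst).clm_apply continuous_snd).clm_apply
      continuous_snd
  have hd : ∀ z : W n, HasFDerivAt T
      ((ContinuousLinearMap.fst ℝ (E n) (E n)).prod
        (((fderiv ℝ (MLS.op (toF g)) z.1).flip z.2).comp (ContinuousLinearMap.fst ℝ (E n) (E n)) +
          (MLS.op (toF g) z.1).comp (ContinuousLinearMap.snd ℝ (E n) (E n)))) z := by
    intro z
    have h1 : HasFDerivAt (fun w : W n => w.1) (ContinuousLinearMap.fst ℝ (E n) (E n)) z :=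
      hasFDerivAt_fst
    have h2 : HasFDerivAt (fun w : W n => w.2) (ContinuousLinearMap.snd ℝ (E n) (E n)) z :=
      hasFDerivAt_snd
    have h3 : HasFDerivAt (MLS.op (toF g)) (fderiv ℝ (MLS.op (toF g)) z.1) z.1 :=
      (hso.differentiable (by simp) z.1).hasFDerivAt
    have h4 : HasFDerivAt (fun w : W n => MLS.op (toF g) w.1)
        ((fderiv ℝ (MLS.op (toF g)) z.1).comp (ContinuousLinearMap.fst ℝ (E n) (E n))) z :=
      h3.comp z h1
    have h5 := h4.clm_apply h2
    have h6 := h1.prodMk h5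
    refine h6.congr_fderiv ?_
    ext w <;> simp [add_comm]
  have hinj : InjOn T (Ball g D) := by
    intro z _ w _ h
    have h1 : (T z).1 = (T w).1 := congrArg Prod.fst h
    have h2 := congrArg (MLS.vel (toF g)) h
    rw [hvel, hvel] at h2
    exact Prod.ext h1 h2
  haveI : (volume : Measure (E n × E n)).IsAddHaarMeasure := by
    rw [Measure.volume_eq_prod]
    infer_instance
  rw [himg, integral_image_eq_integral_abs_det_fderiv_smul volume hm
    (fun z _ => (hd z).hasFDerivWithinAt) hinj]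
  unfold bint
  refine setIntegral_congr_fun hm fun z _ => ?_
  have h1 : ((ContinuousLinearMap.fst ℝ (E n) (E n)).prod
        (((fderiv ℝ (MLS.op (toF g)) z.1).flip z.2).comp (ContinuousLinearMap.fst ℝ (E n) (E n)) +
          (MLS.op (toF g) z.1).comp (ContinuousLinearMap.snd ℝ (E n) (E n)))).det =
      (gram ee g z.1).det := by
    rw [ContinuousLinearMap.det]
    have h2 := det_tri (((fderiv ℝ (MLS.op (toF g)) z.1).flip z.2 : E n →L[ℝ] E n) : E n →ₗ[ℝ] E n)
      (MLS.op (toF g) z.1 : E n →ₗ[ℝ] E n)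
    rw [det_op hO (toF g) hg] at h2
    exact h2
  have h3 : 0 < (gram ee g z.1).det := (MLS.IFib.gm_posDef (toF g) hg z.1).det_pos
  simp only [h1, hvel]
  rw [abs_of_pos h3, smul_eq_mul, mul_comm]

end KBall

end Pool.Agent.GM
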