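import Pool.Agent.Work.MP_25cd3b_gt.KB.Ball
import Pool.Agent.Work.MP_25cd3b_gt.NG.All

set_option autoImplicit false

/-!
# Comparison of the definitions, and the theorems for the definitions of `Gen` and `KB/Defs`
-/

open MeasureTheory Set Filter Topology
open scoped ContDiff

namespace Pool.Agent.GM

open Pool.Agent.MLS (E ee W)

namespace KB

theorem isJ {n : ℕ} (G : Type) [Group G] [MulAction G (E n)] (J : E n → E n →L[ℝ] E n)
    (h : IsJ G J) : MLS.IsJ G J := ⟨h.smooth, h.sq, h.inv⟩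

theorem kah {n : ℕ} (J : E n → E n →L[ℝ] E n) (g : Frm (E n)) (h : Kah J g) :
    MLS.Kah J (toF g) := ⟨h.compat, h.closed⟩

theorem isFD {n : ℕ} (G : Type) [Group G] [MulAction G (E n)] (D : Set (E n)) (h : IsFD G D) :
    MLS.IsFD G D := h

theorem classLe {n : ℕ} (G : Type) [Group G] [MulAction G (E n)] (J : E n → E n →L[ℝ] E n)
    (g2 g1 : Frm (E n)) (h : ClassLe G J g2 g1) : MLS.ClassLe G J (toF g2) (toF g1) := by
  obtain ⟨b, α, h1, h2, h3, h4⟩ := h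
  refine ⟨toF b, α, h1, h2, h3, fun x u v => ?_⟩
  have h5 : ∀ u v : E n, fderiv ℝ (fun y => α y v) x u = fderiv ℝ α x u v := by
    intro u v
    have h6 := ((h2.differentiable (by simp) x).hasFDerivAt).clm_apply (hasFDerivAt_const v x)
    rw [h6.fderiv]
    simp
  have h7 := h4 x u v
  rw [h5, h5] at h7
  exact h7

theorem negSec {n : ℕ} (g : Frm (E n)) (hg : Riem g) (h : NegCurv g) : MLS.NegSec (toF g) := by
  intro x u v huv
  have h1 := h _ (leviCivita_Ga MLS.p_NcGa g hg) x u v huv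
  unfold MLS.Kn
  rw [curv_eq MLS.p_NcGa (toF g) hg]
  exact h1

theorem adm {n : ℕ} (G : Type) [Group G] [MulAction G (E n)] (hG : Cocompact (E n) G)
    (g : Frm (E n)) (hg : Riem g) (hi : Inv G g) (h : Adm g) :
    MLS.Minz (toF g) ∧ MLS.HypG (toF g) := by
  have hG' := (cocompact_iff (n := n) G).2 hG
  rcases h with h | ⟨h1, h2⟩
  · exact MLS.p_NgThm n G hG' (toF g) hg hi (negSec g hg h)
  · exact ⟨MLS.p_NC n G hG' (toF g) hg hi ((noConj_iff MLS.p_NcGa g hg).2 h1),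
      (hypG_iff g).2 h2⟩

theorem pull {n : ℕ} (F : E n → E n) (hF : ContDiff ℝ ∞ F) (g h : Frm (E n))
    (hh : IsPull F g h) : MLS.pull F hF (toF g) = toF h := by
  refine MLS.Form.ext ?_
  funext x
  refine ContinuousLinearMap.ext fun u => ContinuousLinearMap.ext fun v => ?_
  exact (hh x u v).symm

theorem toF_inj {n : ℕ} (g h : Frm (E n)) (e : toF g = toF h) : g = h := congrArg ofF e

/-- stability in Kaehler classes -/
theorem thK (n : ℕ) (G : Type) [Group G] [MulAction G (E n)] (hG : Cocompact (E n) G)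
    (g1 g2 h : Frm (E n)) (r1 : Riem g1) (r2 : Riem g2) (i1 : Inv G g1) (i2 : Inv G g2)
    (h1 : Adm g1) (κ : ℝ) (hκ : 0 ≤ κ) (hL : ∀ a : G, κ * L g1 a ≤ L g2 a)
    (J : E n → E n →L[ℝ] E n) (hJ : IsJ G J) (hK : Kah J g1)
    (F : E n → E n) (hF : IsMap G F g2 h) (hC : ClassLe G J h g1)
    (D : Set (E n)) (hD : IsFD G D) :
    bint ee g1 D (fun x v => (nrm h x v - nrm g1 x v) ^ 2) ≤
      2 * (1 - κ) * bint ee g1 D (fun x v => nrm g1 x v ^ 2) ∧ (κ = 1 → h = g1) := by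
  obtain ⟨m1, y1⟩ := adm G hG g1 r1 i1 h1
  have hp := pull F hF.smooth g2 h hF.pull
  have hL' : ∀ a : G, κ * MLS.L (toF g1) a ≤ MLS.L (toF g2) a := by
    intro a
    rw [L_eq, L_eq]
    exact hL a
  have hC' := classLe G J h g1 hC
  rw [← hp] at hC'
  obtain ⟨a, b⟩ := MLS.p_ThK n G ((cocompact_iff (n := n) G).2 hG) (toF g1) (toF g2) r1 r2 i1 i2
    m1 y1 κ hκ hL' J (isJ G J hJ) (kah J g1 hK) F hF.smooth hF.equiv hC' D hD
  rw [hp] at a b
  rw [KBall.bint_eq MLS.pr_Op g1 r1 D hD.1, KBall.bint_eq MLS.pr_Op g1 r1 D hD.1]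
  exact ⟨a, fun h => (toF_inj _ _ (b h)).symm⟩

theorem svol_eq {n : ℕ} (g1 g2 : Frm (E n)) (D : Set (E n)) (t : ℝ) :
    svol ee g1 g2 D t = ∫ x in D, MLS.sdens (toF g1) (toF g2) t x := rfl

theorem svol_rev {n : ℕ} (g1 g2 : Frm (E n)) (D : Set (E n)) (t : ℝ) :
    svol ee g2 g1 D t = svol ee g1 g2 D (1 - t) := by
  unfold svol
  congr 1
  funext x
  rw [sub_sub_cancel, add_comm]

/-- convexity of the volume -/
theorem thV (n : ℕ) (G : Type) [Group G] [MulAction G (E n)] (hG : Cocompact (E n) G)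
    (g1 g2 : Frm (E n)) (r1 : Riem g1) (r2 : Riem g2) (i1 : Inv G g1) (i2 : Inv G g2)
    (D : Set (E n)) (hD : IsFD G D) (hV : ConvexOn ℝ (Icc 0 1) (svol ee g1 g2 D)) (h1 : Adm g1) :
    ((∀ a : G, L g1 a ≤ L g2 a) →
      vol ee g1 D ≤ vol ee g2 D ∧ (vol ee g2 D = vol ee g1 D → g1 = g2)) ∧
    (Adm g2 → (∀ a : G, L g1 a = L g2 a) → g1 = g2) := by
  have hG' := (cocompact_iff (n := n) G).2 hG
  obtain ⟨m1, y1⟩ := adm G hG g1 r1 i1 h1
  have key : (∀ a : G, L g1 a ≤ L g2 a) → vol ee g1 D ≤ vol ee g2 D ∧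
      (vol ee g2 D ≤ vol ee g1 D → g1 = g2) := by
    intro hL
    have hL' : ∀ a : G, MLS.L (toF g1) a ≤ MLS.L (toF g2) a := by
      intro a
      rw [L_eq, L_eq]
      exact hL a
    obtain ⟨a, b⟩ := MLS.p_ThV n G hG' (toF g1) (toF g2) r1 r2 i1 i2 m1 y1 hL' D hD hV
    exact ⟨a, fun h => toF_inj _ _ (b h)⟩
  refine ⟨fun hL => ⟨(key hL).1, fun h => (key hL).2 h.le⟩, fun h2 hL => ?_⟩
  obtain ⟨m2, y2⟩ := adm G hG g2 r2 i2 h2
  have hV' : ConvexOn ℝ (Icc 0 1) (svol ee g2 g1 D) := by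
    have h := hV.comp_affineMap (AffineMap.lineMap (1 : ℝ) 0)
    have hs : (AffineMap.lineMap (1 : ℝ) 0 : ℝ →ᵃ[ℝ] ℝ) ⁻¹' Icc 0 1 = Icc 0 1 := by
      ext t
      simp only [mem_preimage, AffineMap.lineMap_apply, vsub_eq_sub, vadd_eq_add, smul_eq_mul,
        mem_Icc]
      constructor <;> rintro ⟨h1, h2⟩ <;> constructor <;> linarith
    rw [hs] at h
    refine h.congr ?_
    intro t _
    simp only [Function.comp, AffineMap.lineMap_apply, vsub_eq_sub, vadd_eq_add, smul_eq_mul]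
    rw [svol_rev g1 g2]
    congr 1
    ring
  have hL' : ∀ a : G, MLS.L (toF g2) a ≤ MLS.L (toF g1) a := by
    intro a
    rw [L_eq, L_eq]
    exact (hL a).ge
  obtain ⟨a2, _⟩ := MLS.p_ThV n G hG' (toF g2) (toF g1) r2 r1 i2 i1 m2 y2 hL' D hD hV'
  exact (key fun a => (hL a).le).2 a2

end KB

end Pool.Agent.GM
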