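import Pool.Agent.Work.MP_25cd3b_gt.Gen.Length

set_option autoImplicit false

/-!
# Almost Kaehler metrics, comparison of classes, ball bundles, volume of segments of metrics
-/

open MeasureTheory Set
open scoped ContDiff

namespace Pool.Agent.GM

variable {V : Type} [NormedAddCommGroup V] [NormedSpace ℝ V]

/-- almost complex structures of the quotient -/
structure IsJ (G : Type) [Group G] [MulAction G V] (J : V → V →L[ℝ] V) : Prop where
  smooth : ContDiff ℝ ∞ J
  sq : ∀ x u, J x (J x u) = -u
  inv : ∀ (a : G) (x u : V), J (a • x) (dac a x u) = dac a x (J x u)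

/-- the metric is compatible with `J`, and the two form `g (J u, v)` is closed (almost Kaehler; for
an integrable `J` this is Kaehler) -/
structure Kah (J : V → V →L[ℝ] V) (g : Frm V) : Prop where
  compat : ∀ x u v, g.val x (J x u) (J x v) = g.val x u v
  closed : ∀ x u v w, fderiv ℝ (fun y => g.val y (J y v) w) x u +
    fderiv ℝ (fun y => g.val y (J y w) u) x v + fderiv ℝ (fun y => g.val y (J y u) v) x w = 0

/-- `g1 (J u, v)` minus `g2 (J u, v)` is the sum of `b (J u, v)`, for an invariant semipositive form
`b`, and of the exterior derivative of an invariant one form `α` -/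
def ClassLe (G : Type) [Group G] [MulAction G V] (J : V → V →L[ℝ] V) (g2 g1 : Frm V) : Prop :=
  ∃ (b : Frm V) (α : V → V →L[ℝ] ℝ), Inv G b ∧ ContDiff ℝ ∞ α ∧
    (∀ (a : G) (x u : V), α (a • x) (dac a x u) = α x u) ∧
    ∀ x u v, g1.val x (J x u) v - g2.val x (J x u) v = b.val x (J x u) v +
      (fderiv ℝ (fun y => α y v) x u - fderiv ℝ (fun y => α y u) x v)

/-- fundamental domains -/
def IsFD [MeasurableSpace V] (G : Type) [Group G] [MulAction G V] (D : Set V) : Prop :=
  MeasurableSet D ∧ ∀ x : V, ∃! a : G, a • x ∈ D

/-- the unit ball bundle over `D` -/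
def Ball (g : Frm V) (D : Set V) : Set (V × V) := {z | z.1 ∈ D ∧ g.val z.1 z.2 z.2 ≤ 1}

/-- integral of `f` over the unit ball bundle over `D` with respect to `(det g) dx dv`, that is with
respect to the volume measure of `g` on `D` and the Lebesgue measures of the tangent spaces -/
noncomputable def bint {n : ℕ} [MeasureSpace V] (b : Fin n → V) (g : Frm V) (D : Set V)
    (f : V → V → ℝ) : ℝ := ∫ z in Ball g D, f z.1 z.2 * (gram b g z.1).det

/-- volume of `D` for the form `g` -/
noncomputable def vol {n : ℕ} [MeasureSpace V] (b : Fin n → V) (g : Frm V) (D : Set V) : ℝ :=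
  ∫ x in D, dens b g x

/-- volume of `D` for the form `(1 - t) g1 + t g2` -/
noncomputable def svol {n : ℕ} [MeasureSpace V] (b : Fin n → V) (g1 g2 : Frm V) (D : Set V)
    (t : ℝ) : ℝ := ∫ x in D, Real.sqrt ((1 - t) • gram b g1 x + t • gram b g2 x).det

/-- the map `F` of the quotient to itself, homotopic to the identity, given by an equivariant map of
`V`, and `h` the pull-back of `g` -/
structure IsMap (G : Type) [Group G] [MulAction G V] (F : V → V) (g h : Frm V) : Prop where
  smooth : ContDiff ℝ ∞ F
  equiv : ∀ (a : G) (x : V), F (a • x) = a • F x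
  pull : IsPull F g h

/-- negative curvature, or no conjugate points and Gromov hyperbolic universal covering -/
def Adm (g : Frm V) : Prop := NegCurv g ∨ (NoConj g ∧ HypG g)

end Pool.Agent.GM
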